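import Pool.Agent.Q33.Fek.Row
import Pool.Agent.Q33.Fek.Smear
import Pool.Agent.Q33.Fek.Iid

/-! `MP_d057eb_an`: for every nonempty compact `K ⊆ ℂ`, the ratio of the `n`-th diameter and the
logarithmic capacity of the closed `1/n`-neighbourhood of `K` tends to `1`. -/

namespace Pool.Agent.Results.MP_d057eb_an.RatioTendsToOne

open MeasureTheory Set Filter Topology Finset Pool.Agent.Q33.Fek

/-- the closed `ε`-neighbourhood of `K` -/
def nbhd (K : Set ℂ) (ε : ℝ) : Set ℂ := {z | Metric.infDist z K ≤ ε}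

/-- the energy `I(μ) = ∬ log|z - w| dμ dμ`: the integral of the positive part minus the integral of
the negative part, where the negative part is `∞` on the diagonal `z = w` -/
noncomputable def energy (μ : Measure ℂ) : EReal :=
  ((∫⁻ p : ℂ × ℂ, ENNReal.ofReal (Real.log ‖p.1 - p.2‖) ∂(μ.prod μ) : ENNReal) : EReal) -
    ((∫⁻ p : ℂ × ℂ, (diagonal ℂ).indicator (fun _ => ⊤) p +
      ENNReal.ofReal (-Real.log ‖p.1 - p.2‖) ∂(μ.prod μ) : ENNReal) : EReal)

/-- the logarithmic capacity `C(E) = exp (sup I(μ))`, the supremum over the Borel probability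
measures `μ` with `μ(ℂ ∖ E) = 0` -/
noncomputable def capacity (E : Set ℂ) : ℝ :=
  (EReal.exp (⨆ μ ∈ {μ : Measure ℂ | IsProbabilityMeasure μ ∧ μ Eᶜ = 0}, energy μ)).toReal

/-- the `n`-th diameter `δ_n(E)` -/
noncomputable def diam (n : ℕ) (E : Set ℂ) : ℝ :=
  sSup {d : ℝ | ∃ w : Fin n → ℂ, (∀ i, w i ∈ E) ∧
    d = ∏ j, ∏ k ∈ Finset.Ioi j, ‖w j - w k‖ ^ (2 / ((n : ℝ) * (n - 1)))}

/-- the double sum over ordered pairs -/
noncomputable def T {n : ℕ} (w : Fin n → ℂ) : ℝ := ∑ j, ∑ k ∈ univ.erase j, Real.log ‖w j - w k‖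

theorem energy_eq (μ : Measure ℂ) [IsProbabilityMeasure μ]
    (hd : (μ.prod μ) {p : ℂ × ℂ | p.1 = p.2} = 0)
    (hi : Integrable (fun p : ℂ × ℂ => Real.log ‖p.1 - p.2‖) (μ.prod μ)) :
    energy μ = ((∫ p, Real.log ‖p.1 - p.2‖ ∂(μ.prod μ) : ℝ) : EReal) := by
  have h1 : ∫⁻ p : ℂ × ℂ, (diagonal ℂ).indicator (fun _ => (⊤ : ENNReal)) p +
      ENNReal.ofReal (-Real.log ‖p.1 - p.2‖) ∂(μ.prod μ) =
      ∫⁻ p : ℂ × ℂ, ENNReal.ofReal (-Real.log ‖p.1 - p.2‖) ∂(μ.prod μ) := by
    apply lintegral_congr_ae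
    have h2 : ∀ᵐ p ∂(μ.prod μ), p ∉ {p : ℂ × ℂ | p.1 = p.2} := measure_eq_zero_iff_ae_notMem.1 hd
    filter_upwards [h2] with p hp
    rw [Set.indicator_of_notMem, zero_add]
    exact hp
  rw [energy, h1, integral_eq_lintegral_pos_part_sub_lintegral_neg_part hi]
  have hP : ∫⁻ p : ℂ × ℂ, ENNReal.ofReal (Real.log ‖p.1 - p.2‖) ∂(μ.prod μ) ≠ ⊤ :=
    (hi.lintegral_lt_top).ne
  have hN : ∫⁻ p : ℂ × ℂ, ENNReal.ofReal (-Real.log ‖p.1 - p.2‖) ∂(μ.prod μ) ≠ ⊤ :=
    (hi.neg.lintegral_lt_top).ne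
  rw [EReal.coe_sub, EReal.coe_ennreal_toReal hP, EReal.coe_ennreal_toReal hN]

theorem bridge (μ : Measure ℂ) [IsProbabilityMeasure μ] {E : Set ℂ} (hE : μ Eᶜ = 0) {R : ℝ}
    (hR : ∀ z ∈ E, ∀ w ∈ E, ‖z - w‖ ≤ R) (hR1 : 1 ≤ R) (h : energy μ ≠ ⊥) :
    (μ.prod μ) {p : ℂ × ℂ | p.1 = p.2} = 0 ∧
      Integrable (fun p : ℂ × ℂ => Real.log ‖p.1 - p.2‖) (μ.prod μ) := by
  have hm : Measurable fun p : ℂ × ℂ => Real.log ‖p.1 - p.2‖ := meas_log2'
  have hN : ∫⁻ p : ℂ × ℂ, (diagonal ℂ).indicator (fun _ => (⊤ : ENNReal)) p +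
      ENNReal.ofReal (-Real.log ‖p.1 - p.2‖) ∂(μ.prod μ) ≠ ⊤ := by
    intro h1
    apply h
    rw [energy, h1]
    exact EReal.sub_top _
  have hmd : MeasurableSet (diagonal ℂ) := measurableSet_diagonal
  have h1 : ∫⁻ p : ℂ × ℂ, (diagonal ℂ).indicator (fun _ => (⊤ : ENNReal)) p ∂(μ.prod μ) ≠ ⊤ := by
    refine ne_top_of_le_ne_top hN (lintegral_mono fun p => ?_)
    exact le_self_add
  have h2 : ∫⁻ p : ℂ × ℂ, ENNReal.ofReal (-Real.log ‖p.1 - p.2‖) ∂(μ.prod μ) ≠ ⊤ := by
    refine ne_top_of_le_ne_top hN (lintegral_mono fun p => ?_)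
    exact le_add_self
  refine ⟨?_, hm.aestronglyMeasurable, ?_⟩
  · by_contra h3
    apply h1
    rw [lintegral_indicator_const hmd]
    exact ENNReal.top_mul h3
  · rw [hasFiniteIntegral_iff_norm]
    have hE1 : ∀ᵐ z ∂μ, z ∈ E := by
      rw [ae_iff]
      simpa [Set.compl_def] using hE
    have hE2 : ∀ᵐ p ∂(μ.prod μ), p.1 ∈ E := Measure.quasiMeasurePreserving_fst.ae hE1
    have hE3 : ∀ᵐ p ∂(μ.prod μ), p.2 ∈ E := Measure.quasiMeasurePreserving_snd.ae hE1
    have h4 : ∫⁻ p : ℂ × ℂ, ENNReal.ofReal ‖Real.log ‖p.1 - p.2‖‖ ∂(μ.prod μ) ≤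
        ∫⁻ p : ℂ × ℂ, (ENNReal.ofReal (Real.log R) + ENNReal.ofReal (-Real.log ‖p.1 - p.2‖))
          ∂(μ.prod μ) := by
      apply lintegral_mono_ae
      filter_upwards [hE2, hE3] with p hp1 hp2
      have h5 : Real.log ‖p.1 - p.2‖ ≤ Real.log R := by
        rcases eq_or_lt_of_le (norm_nonneg (p.1 - p.2)) with h | h
        · rw [← h, Real.log_zero]; exact Real.log_nonneg hR1
        · exact Real.log_le_log h (hR _ hp1 _ hp2)
      rcases le_total 0 (Real.log ‖p.1 - p.2‖) with h | h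
      · rw [Real.norm_of_nonneg h]
        exact (ENNReal.ofReal_le_ofReal h5).trans le_self_add
      · rw [Real.norm_of_nonpos h]
        exact le_add_self
    refine lt_of_le_of_lt h4 ?_
    rw [lintegral_add_left measurable_const, lintegral_const, measure_univ, mul_one]
    exact ENNReal.add_lt_top.2 ⟨ENNReal.ofReal_lt_top, lt_top_iff_ne_top.2 h2⟩

theorem energy_le {n : ℕ} (hn : 2 ≤ n) (μ : Measure ℂ) [IsProbabilityMeasure μ] {E : Set ℂ}
    (hE : μ Eᶜ = 0) {R : ℝ} (hR : ∀ z ∈ E, ∀ w ∈ E, ‖z - w‖ ≤ R) (hR1 : 1 ≤ R) {l : ℝ}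
    (hl : ∀ v : Fin n → ℂ, (∀ i, v i ∈ E) → Function.Injective v → T v ≤ n * (n - 1) * l) :
    energy μ ≤ (l : EReal) := by
  by_cases h : energy μ = ⊥
  · rw [h]; exact bot_le
  · obtain ⟨h1, h2⟩ := bridge μ hE hR hR1 h
    rw [energy_eq μ h1 h2, EReal.coe_le_coe_iff]
    have h3 := iid (n := n) μ h1 h2 hE hl
    have hn' : (2 : ℝ) ≤ n := by exact_mod_cast hn
    have h4 : (0 : ℝ) < n * (n - 1) := by nlinarith
    exact le_of_mul_le_mul_left h3 h4

theorem T_eq {n : ℕ} (v : Fin n → ℂ) :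
    T v = 2 * ∑ j, ∑ k ∈ Finset.Ioi j, Real.log ‖v j - v k‖ := by
  have h1 : ∀ j : Fin n, ∑ k ∈ univ.erase j, Real.log ‖v j - v k‖ =
      ∑ k ∈ Finset.Ioi j, Real.log ‖v j - v k‖ + ∑ k ∈ Finset.Iio j, Real.log ‖v j - v k‖ := by
    intro j
    rw [← sum_union (by
      rw [Finset.disjoint_left]
      intro a ha hb
      rw [Finset.mem_Ioi] at ha
      rw [Finset.mem_Iio] at hb
      exact absurd ha (not_lt.2 hb.le))]
    refine sum_congr ?_ fun _ _ => rfl
    ext k
    simp only [Finset.mem_erase, Finset.mem_univ, and_true, Finset.mem_union, Finset.mem_Ioi,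
      Finset.mem_Iio]
    constructor
    · intro h
      rcases lt_or_gt_of_ne h with h | h
      · right; exact h
      · left; exact h
    · rintro (h | h)
      · exact h.ne'
      · exact h.ne
  have h2 : ∑ j : Fin n, ∑ k ∈ Finset.Iio j, Real.log ‖v j - v k‖ =
      ∑ j : Fin n, ∑ k ∈ Finset.Ioi j, Real.log ‖v j - v k‖ := by
    rw [sum_comm' (s' := fun k => Finset.Ioi k) (t' := univ) (by
      intro x y; simp)]
    refine sum_congr rfl fun j _ => sum_congr rfl fun k _ => ?_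
    rw [norm_sub_rev]
  unfold T
  rw [sum_congr rfl fun j _ => h1 j, sum_add_distrib, h2]
  ring

/-- the product -/
noncomputable def V {n : ℕ} (w : Fin n → ℂ) : ℝ :=
  ∏ j, ∏ k ∈ Finset.Ioi j, ‖w j - w k‖ ^ (2 / ((n : ℝ) * (n - 1)))

theorem V_pos {n : ℕ} {v : Fin n → ℂ} (hv : Function.Injective v) : 0 < V v := by
  refine prod_pos fun j _ => prod_pos fun k hk => ?_
  apply Real.rpow_pos_of_pos
  rw [norm_pos_iff, sub_ne_zero]
  intro h
  have := hv h
  rw [Finset.mem_Ioi] at hk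
  exact absurd this hk.ne

theorem log_V {n : ℕ} {v : Fin n → ℂ} (hv : Function.Injective v) :
    Real.log (V v) = T v / (n * (n - 1)) := by
  have h0 : ∀ j : Fin n, ∀ k ∈ Finset.Ioi j, 0 < ‖v j - v k‖ := by
    intro j k hk
    rw [norm_pos_iff, sub_ne_zero]
    intro h
    rw [Finset.mem_Ioi] at hk
    exact absurd (hv h) hk.ne
  unfold V
  rw [Real.log_prod fun j _ => (prod_pos fun k hk => Real.rpow_pos_of_pos (h0 j k hk) _).ne', T_eq]
  rw [sum_congr rfl fun j _ => Real.log_prod fun k hk => (Real.rpow_pos_of_pos (h0 j k hk) _).ne']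
  rw [sum_congr rfl fun j _ => sum_congr rfl fun k hk => Real.log_rpow (h0 j k hk) _]
  simp only [← mul_sum]
  ring

theorem V_cont (n : ℕ) (hn : 2 ≤ n) : Continuous (V : (Fin n → ℂ) → ℝ) := by
  unfold V
  have hn' : (2 : ℝ) ≤ n := by exact_mod_cast hn
  have h4 : (0 : ℝ) ≤ 2 / (n * (n - 1)) := by
    apply div_nonneg (by norm_num)
    nlinarith
  refine continuous_finsetProd _ fun j _ => continuous_finsetProd _ fun k _ => ?_
  exact Continuous.rpow_const (by fun_prop) fun _ => Or.inr h4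

theorem inj_of_pos {n : ℕ} (hn : 2 ≤ n) {v : Fin n → ℂ} (h : 0 < V v) : Function.Injective v := by
  have hn' : (2 : ℝ) ≤ n := by exact_mod_cast hn
  have h4 : (0 : ℝ) < 2 / (n * (n - 1)) := by
    apply div_pos (by norm_num)
    nlinarith
  have key : ∀ a b : Fin n, a < b → v a ≠ v b := by
    intro a b hab hv
    have h1 : V v = 0 := by
      unfold V
      apply prod_eq_zero (mem_univ a)
      apply prod_eq_zero (Finset.mem_Ioi.2 hab)
      rw [hv, sub_self, norm_zero, Real.zero_rpow h4.ne']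
    rw [h1] at h
    exact lt_irrefl _ h
  intro a b hab
  by_contra hne
  rcases lt_or_gt_of_ne hne with h1 | h1
  · exact key a b h1 hab
  · exact key b a h1 hab.symm

theorem core {K : Set ℂ} (hK : IsCompact K) (hne : K.Nonempty) :
    ∃ R : ℝ, 1 ≤ R ∧ ∀ n : ℕ, 2 ≤ n → ∀ η : ℝ, 0 < η → η < 1 →
      1 ≤ diam n (nbhd K (1 / n)) / capacity (nbhd K (1 / n)) ∧
      diam n (nbhd K (1 / n)) / capacity (nbhd K (1 / n)) ≤
        Real.exp ((Real.log R - Real.log (η ^ 2 / 2 * (1 / n))) / n +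
          (-Real.log (1 - η) + Real.log 2 * Real.log 3 / (-Real.log η))) := by
  obtain ⟨M, hM⟩ := hK.isBounded.subset_closedBall 0
  refine ⟨2 * (|M| + 1) + 1, by have := abs_nonneg M; linarith, fun n hn η hη hη1 => ?_⟩
  set R : ℝ := 2 * (|M| + 1) + 1 with hRdef
  have hR1 : 1 ≤ R := by have := abs_nonneg M; linarith
  have hn' : (2 : ℝ) ≤ n := by exact_mod_cast hn
  have hn0 : (0 : ℝ) < n := by linarith
  set r : ℝ := 1 / (n : ℝ) with hrdef
  have hr : 0 < r := by positivity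
  have hr1 : r ≤ 1 := by
    rw [hrdef, div_le_one hn0]; linarith
  set E : Set ℂ := nbhd K r with hEdef
  have hnear : ∀ z ∈ E, ∃ b ∈ K, ‖z - b‖ ≤ r := by
    intro z hz
    obtain ⟨b, hb, hb2⟩ := hK.exists_infDist_eq_dist hne z
    refine ⟨b, hb, ?_⟩
    rw [← dist_eq_norm, ← hb2]
    exact hz
  have hmem : ∀ b ∈ K, ∀ z : ℂ, ‖z - b‖ ≤ r → z ∈ E := by
    intro b hb z hz
    have h1 : Metric.infDist z K ≤ dist z b := Metric.infDist_le_dist_of_mem hb
    rw [dist_eq_norm] at h1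
    exact h1.trans hz
  have hbd : ∀ z ∈ E, ‖z‖ ≤ |M| + 1 := by
    intro z hz
    obtain ⟨b, hb, hb2⟩ := hnear z hz
    have h1 : ‖b‖ ≤ M := by simpa using hM hb
    have h2 : ‖z‖ ≤ ‖z - b‖ + ‖b‖ := by
      have := norm_add_le (z - b) b
      simpa using this
    have h3 := le_abs_self M
    linarith
  have hR : ∀ z ∈ E, ∀ w ∈ E, ‖z - w‖ ≤ R := by
    intro z hz w hw
    have h1 := hbd z hz
    have h2 := hbd w hw
    have h3 := norm_sub_le z w
    linarith
  have hEc : IsCompact E := by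
    apply Metric.isCompact_of_isClosed_isBounded
    · exact isClosed_le (Metric.continuous_infDist_pt K) continuous_const
    · refine (Metric.isBounded_closedBall (x := (0 : ℂ)) (r := |M| + 1)).subset fun z hz => ?_
      simpa using hbd z hz
  -- an injective tuple
  obtain ⟨b0, hb0⟩ := hne
  have hv0 : ∃ v : Fin n → ℂ, (∀ i, v i ∈ E) ∧ Function.Injective v := by
    refine ⟨fun i => b0 + ((((i : ℕ) : ℝ) / (n : ℝ) ^ 2 : ℝ) : ℂ), fun i => ?_, fun i k hik => ?_⟩
    · apply hmem b0 hb0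
      rw [add_sub_cancel_left, Complex.norm_real, Real.norm_of_nonneg (by positivity), hrdef,
        div_le_div_iff₀ (by positivity) hn0]
      have h1 : ((i : ℕ) : ℝ) ≤ n := by exact_mod_cast i.2.le
      nlinarith
    · have h1 := add_left_cancel hik
      have h2 : ((i : ℕ) : ℝ) / (n : ℝ) ^ 2 = ((k : ℕ) : ℝ) / (n : ℝ) ^ 2 := by exact_mod_cast h1
      have h3 : ((i : ℕ) : ℝ) = ((k : ℕ) : ℝ) := by
        field_simp at h2
        exact h2
      exact Fin.ext (by exact_mod_cast h3)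
  obtain ⟨v0, hv0E, hv0i⟩ := hv0
  obtain ⟨w, hwE', hwmax'⟩ := (isCompact_univ_pi fun _ : Fin n => hEc).exists_isMaxOn
    ⟨v0, fun i _ => hv0E i⟩ (V_cont n hn).continuousOn
  have hwE : ∀ i, w i ∈ E := fun i => hwE' i (Set.mem_univ i)
  have hwmax : ∀ v : Fin n → ℂ, (∀ i, v i ∈ E) → V v ≤ V w := fun v hv =>
    hwmax' (fun i _ => hv i : v ∈ Set.pi Set.univ fun _ => E)
  have hVw : 0 < V w := lt_of_lt_of_le (V_pos hv0i) (hwmax v0 hv0E)
  have hwi : Function.Injective w := inj_of_pos hn hVw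
  have hdiam : diam n E = V w := by
    apply IsGreatest.csSup_eq
    refine ⟨⟨w, hwE, rfl⟩, ?_⟩
    rintro d ⟨v, hv, rfl⟩
    exact hwmax v hv
  have hnn : (0 : ℝ) < n * (n - 1) := by nlinarith
  set l : ℝ := Real.log (V w) with hl
  have hTw : T w = n * (n - 1) * l := by
    have h1 : (n : ℝ) - 1 ≠ 0 := by linarith
    rw [hl, log_V hwi]
    field_simp
  have hmax : ∀ v : Fin n → ℂ, (∀ i, v i ∈ E) → Function.Injective v → T v ≤ T w := by
    intro v hv hvi
    have h1 : Real.log (V v) ≤ Real.log (V w) := Real.log_le_log (V_pos hvi) (hwmax v hv)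
    rw [log_V hvi, log_V hwi, div_le_div_iff_of_pos_right hnn] at h1
    exact h1
  have hlR : l ≤ Real.log R := by
    have h1 : T w ≤ n * (n - 1) * Real.log R := by
      unfold T
      have h2 : ∀ j ∈ (univ : Finset (Fin n)), ∑ k ∈ univ.erase j, Real.log ‖w j - w k‖ ≤
          (n - 1) * Real.log R := by
        intro j _
        have h3 : ∑ k ∈ univ.erase j, Real.log ‖w j - w k‖ ≤ (univ.erase j).card • Real.log R := by
          refine sum_le_card_nsmul _ _ _ fun k hk => ?_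
          refine Real.log_le_log (norm_pos_iff.2 (sub_ne_zero.2 fun h => ?_)) (hR _ (hwE j) _ (hwE k))
          exact Finset.ne_of_mem_erase hk (hwi h).symm
        rw [card_erase_of_mem (Finset.mem_univ j), card_univ, Fintype.card_fin, nsmul_eq_mul,
          Nat.cast_sub (by omega), Nat.cast_one] at h3
        exact h3
      have h4 := sum_le_card_nsmul _ _ _ h2
      rw [card_univ, Fintype.card_fin, nsmul_eq_mul] at h4
      linarith
    rw [hTw] at h1
    exact le_of_mul_le_mul_left h1 hnn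
  -- the points b and c
  choose b hbK hwb using fun i => hnear (w i) (hwE i)
  set c : Fin n → ℂ := fun k => b k + ((1 - η ^ 2 / 2 : ℝ) : ℂ) * (w k - b k) with hc
  set ρ : ℝ := η ^ 2 / 2 * r with hρdef
  have hρ : 0 < ρ := by positivity
  set κ : ℝ := -Real.log (1 - η) + Real.log 2 * Real.log 3 / (-Real.log η) with hκ
  have hrow : ∀ j, ∑ k ∈ univ.erase j, Real.log ‖w j - w k‖ ≤
      ∑ k ∈ univ.erase j, lm ρ (c j - c k) + n * κ := by
    intro j
    refine row hwi j hr hη hη1 hwb ?_ fun k => rfl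
    refine circ_row (E := E) j (fun z hz hzw => one_point hwE hwi hmax j hz hzw) hr fun z hz => ?_
    exact hmem (b j) (hbK j) z hz.le
  have hsum : T w + n * Real.log ρ - n * (n * κ) ≤ ∑ j, ∑ k, lm ρ (c j - c k) := by
    have h1 : ∀ j ∈ (univ : Finset (Fin n)), ∑ k ∈ univ.erase j, Real.log ‖w j - w k‖ +
        (Real.log ρ - n * κ) ≤ ∑ k, lm ρ (c j - c k) := by
      intro j _
      have h2 : ∑ k, lm ρ (c j - c k) = Real.log ρ + ∑ k ∈ univ.erase j, lm ρ (c j - c k) := by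
        rw [← add_sum_erase univ _ (Finset.mem_univ j)]
        congr 1
        rw [sub_self, lm, norm_zero, max_eq_left hρ.le]
      have h3 := hrow j
      rw [h2]
      linarith
    have h4 := sum_le_sum h1
    rw [sum_add_distrib, sum_const, card_univ, Fintype.card_fin, nsmul_eq_mul] at h4
    have h5 : T w + n * Real.log ρ - n * (n * κ) =
        ∑ j, ∑ k ∈ univ.erase j, Real.log ‖w j - w k‖ + n * (Real.log ρ - n * κ) := by
      unfold T; ring
    rw [h5]
    exact h4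
  have hnpos : 0 < n := by omega
  have hprob := smr_prob hnpos c ρ
  have hsupp : smr c ρ Eᶜ = 0 := by
    refine smr_null c ρ fun j => ?_
    have h1 : ∀ᵐ z ∂(sg (c j) ρ), z ∈ E := by
      filter_upwards [sg_sphere (c := c j) hρ] with z hz
      apply hmem (b j) (hbK j)
      have h2 : z - b j = (z - c j) + ((1 - η ^ 2 / 2 : ℝ) : ℂ) * (w j - b j) := by
        simp only [hc]; ring
      have h3 : 0 ≤ 1 - η ^ 2 / 2 := by nlinarith
      rw [h2]
      calc ‖(z - c j) + ((1 - η ^ 2 / 2 : ℝ) : ℂ) * (w j - b j)‖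
          ≤ ‖z - c j‖ + ‖((1 - η ^ 2 / 2 : ℝ) : ℂ) * (w j - b j)‖ := norm_add_le _ _
        _ = ρ + (1 - η ^ 2 / 2) * ‖w j - b j‖ := by
            rw [hz, norm_mul, Complex.norm_real, Real.norm_of_nonneg h3]
        _ ≤ ρ + (1 - η ^ 2 / 2) * r := by
            have := mul_le_mul_of_nonneg_left (hwb j) h3
            linarith
        _ = r := by rw [hρdef]; ring
    rw [ae_iff] at h1
    simpa [Set.compl_def] using h1
  set m : ℝ := (n - 1) / n * l - κ + Real.log ρ / n with hm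
  have hmI : (m : EReal) ≤ energy (smr c ρ) := by
    rw [energy_eq _ (smear_diag hnpos c hρ) (smear_integrable hnpos c hρ), EReal.coe_le_coe_iff]
    refine le_trans ?_ (smear_energy hnpos c hρ)
    have h1 : m = ((n : ℝ) ^ 2)⁻¹ * (T w + n * Real.log ρ - n * (n * κ)) := by
      rw [hTw, hm]
      field_simp
      ring
    rw [h1]
    exact mul_le_mul_of_nonneg_left hsum (by positivity)
  set S : EReal := ⨆ μ ∈ {μ : Measure ℂ | IsProbabilityMeasure μ ∧ μ Eᶜ = 0}, energy μ with hS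
  have hSl : S ≤ (l : EReal) := by
    refine iSup₂_le fun μ hμ => ?_
    have := hμ.1
    refine energy_le hn μ hμ.2 hR hR1 fun v hv hvi => ?_
    rw [← hTw]
    exact hmax v hv hvi
  have hSm : (m : EReal) ≤ S := by
    refine hmI.trans ?_
    exact le_iSup₂ (f := fun (μ : Measure ℂ) (_ : μ ∈ {μ : Measure ℂ | IsProbabilityMeasure μ ∧
      μ Eᶜ = 0}) => energy μ) (smr c ρ) ⟨hprob, hsupp⟩
  have hcap : capacity E = (EReal.exp S).toReal := rfl
  have hexpl : EReal.exp S ≤ ENNReal.ofReal (Real.exp l) := by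
    rw [← EReal.exp_coe]
    exact EReal.exp_monotone hSl
  have hexpm : ENNReal.ofReal (Real.exp m) ≤ EReal.exp S := by
    rw [← EReal.exp_coe]
    exact EReal.exp_monotone hSm
  have htop : EReal.exp S ≠ ⊤ := ne_top_of_le_ne_top ENNReal.ofReal_ne_top hexpl
  have hcl : capacity E ≤ Real.exp l := by
    rw [hcap]
    exact ENNReal.toReal_le_of_le_ofReal (Real.exp_pos l).le hexpl
  have hcm : Real.exp m ≤ capacity E := by
    rw [hcap]
    exact (ENNReal.ofReal_le_iff_le_toReal htop).1 hexpm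
  have hcpos : 0 < capacity E := lt_of_lt_of_le (Real.exp_pos m) hcm
  have hVl : V w = Real.exp l := (Real.exp_log hVw).symm
  rw [hdiam, hVl]
  constructor
  · rw [one_le_div hcpos]
    exact hcl
  · rw [div_le_iff₀ hcpos]
    have h1 : Real.exp l = Real.exp (l - m) * Real.exp m := by
      rw [← Real.exp_add]; congr 1; ring
    rw [h1]
    have h2 : l - m ≤ (Real.log R - Real.log ρ) / n + κ := by
      have h3 : l - m = (l - Real.log ρ) / n + κ := by
        rw [hm]; field_simp; ring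
      rw [h3]
      have h4 : (l - Real.log ρ) / n ≤ (Real.log R - Real.log ρ) / n :=
        div_le_div_of_nonneg_right (by linarith) hn0.le
      linarith
    exact mul_le_mul (Real.exp_le_exp.2 h2) hcm (Real.exp_pos m).le (Real.exp_pos _).le

/-- **Theorem** (Q1). For every nonempty compact `K ⊆ ℂ`, the ratio `δ_n(K^{1/n}) / C(K^{1/n})`
tends to `1` as `n → ∞`. -/
theorem result (K : Set ℂ) (hK : IsCompact K) (hne : K.Nonempty) :
    Tendsto (fun n : ℕ => diam n (nbhd K (1 / n)) / capacity (nbhd K (1 / n))) atTop (𝓝 1) := by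
  obtain ⟨R, hR1, hR⟩ := core hK hne
  rw [tendsto_order]
  constructor
  · intro a ha
    filter_upwards [eventually_ge_atTop 2] with n hn
    exact lt_of_lt_of_le ha (hR n hn (1 / 2) (by norm_num) (by norm_num)).1
  · intro a ha
    have hε : 0 < Real.log a := Real.log_pos ha
    have hκ : Tendsto (fun η : ℝ => -Real.log (1 - η) + Real.log 2 * Real.log 3 / (-Real.log η))
        (𝓝[>] 0) (𝓝 (0 + 0)) := by
      apply Tendsto.add
      · have h1 : ContinuousAt (fun η : ℝ => -Real.log (1 - η)) 0 := by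
          apply ContinuousAt.neg
          apply ContinuousAt.log (by fun_prop)
          norm_num
        have h2 := h1.tendsto
        simp only [sub_zero, Real.log_one, neg_zero] at h2
        exact h2.mono_left nhdsWithin_le_nhds
      · apply Tendsto.const_div_atTop
        exact tendsto_neg_atBot_atTop.comp Real.tendsto_log_nhdsGT_zero
    rw [add_zero] at hκ
    have h1 : ∀ᶠ η : ℝ in 𝓝[>] 0, -Real.log (1 - η) + Real.log 2 * Real.log 3 / (-Real.log η) <
        Real.log a / 2 := hκ.eventually (gt_mem_nhds (by linarith))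
    have h2 : ∀ᶠ η : ℝ in 𝓝[>] 0, 0 < η := self_mem_nhdsWithin
    have h3 : ∀ᶠ η : ℝ in 𝓝[>] 0, η < 1 := nhdsWithin_le_nhds (gt_mem_nhds one_pos)
    obtain ⟨η, ⟨hη, hη0⟩, hη1⟩ := ((h1.and h2).and h3).exists
    have hlim : Tendsto (fun n : ℕ => (Real.log R - Real.log (η ^ 2 / 2 * (1 / n))) / n) atTop (𝓝 0) := by
      have h4 : Tendsto (fun n : ℕ => (Real.log R - Real.log (η ^ 2 / 2)) / (n : ℝ) +
          Real.log n / n) atTop (𝓝 (0 + 0)) := by
        apply Tendsto.add
        · exact tendsto_const_nhds.div_atTop tendsto_natCast_atTop_atTop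
        · exact (Real.isLittleO_log_id_atTop.tendsto_div_nhds_zero).comp tendsto_natCast_atTop_atTop
      rw [add_zero] at h4
      refine h4.congr' ?_
      filter_upwards [eventually_ge_atTop 1] with n hn
      have hn0 : (n : ℝ) ≠ 0 := by positivity
      rw [Real.log_mul (by positivity) (by positivity), one_div, Real.log_inv]
      field_simp
      ring
    have h5 : ∀ᶠ n : ℕ in atTop, (Real.log R - Real.log (η ^ 2 / 2 * (1 / n))) / n < Real.log a / 2 :=
      hlim.eventually (gt_mem_nhds (by linarith))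
    filter_upwards [h5, eventually_ge_atTop 2] with n hn1 hn2
    refine lt_of_le_of_lt (hR n hn2 η hη0 hη1).2 ?_
    calc Real.exp _ < Real.exp (Real.log a) := Real.exp_lt_exp.2 (by linarith)
      _ = a := Real.exp_log (by linarith)

end Pool.Agent.Results.MP_d057eb_an.RatioTendsToOne
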